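import Pool.Agent.Lib.MP_c37a72_al.Brown

/-!
# MP_c37a72_al, Q1 (Brown): every Noetherian PI Hopf domain is module-finite over its centre

`k` algebraically closed of characteristic `0`, `H` a Hopf algebra over `k` with bijective antipode
which is Noetherian, satisfies a polynomial identity and is a domain. Then `H` is a finitely
generated module over its centre.
-/

set_option autoImplicit false

namespace Pool.Agent.Results.MP_c37a72_al.Brown

open Pool.Agent.Lib.MP_c37a72_al

universe u v

theorem result (k : Type u) [Field k] [IsAlgClosed k] [CharZero k]
    (H : Type v) [Ring H] [HopfAlgebra k H]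
    (_antipode : Function.Bijective (HopfAlgebra.antipode k (A := H)))
    (_noetherian : IsNoetherianRing H)
    (_pi : ∃ (n : ℕ) (f : FreeAlgebra k (Fin n)), f ≠ 0 ∧
      ∀ a : Fin n → H, FreeAlgebra.lift k a f = 0)
    (_domain : IsDomain H) :
    Module.Finite (Subalgebra.center k H) H :=
  brownMain k H _antipode _noetherian _pi _domain

end Pool.Agent.Results.MP_c37a72_al.Brown
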